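import Mathlib

set_option autoImplicit false

namespace Pool.Agent.KS6_54.SBD

open Relation

variable {V : Type}

/-- the underlying undirected simple graph -/
def und (E : Finset (V × V)) : SimpleGraph V := SimpleGraph.fromRel fun a b => (a, b) ∈ E

/-- strongly connected, and no vertex deletion disconnects the underlying graph -/
def SB (E : Finset (V × V)) : Prop :=
  (∀ u v, ReflTransGen (fun a b => (a, b) ∈ E) u v) ∧
    ∀ w : V, ((und E).induce ({w}ᶜ : Set V)).Preconnected

/-- 2-edge-strongly biconnected (the condition `n ≥ 3` is a hypothesis of the theorem) -/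
def TSB [DecidableEq V] (E : Finset (V × V)) : Prop := SB E ∧ ∀ e ∈ E, SB (E.erase e)

def R (F : Finset (V × V)) (a b : V) : Prop := (a, b) ∈ F

def U (F : Finset (V × V)) (w a b : V) : Prop := a ≠ w ∧ b ≠ w ∧ ((a, b) ∈ F ∨ (b, a) ∈ F)

theorem U_symm (F : Finset (V × V)) (w : V) {a b : V} (h : ReflTransGen (U F w) a b) :
    ReflTransGen (U F w) b a := by
  induction h with
  | refl => rfl
  | tail _ h ih => exact ReflTransGen.head ⟨h.2.1, h.1, h.2.2.symm⟩ ih

theorem mn {r s : V → V → Prop} {a b : V} (h : ReflTransGen r a b) (hrs : ∀ x y, r x y → s x y) :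
    ReflTransGen s a b := by
  induction h with
  | refl => rfl
  | tail _ h ih => exact ih.tail (hrs _ _ h)

theorem pre_iff (E : Finset (V × V)) (w : V) : ((und E).induce ({w}ᶜ : Set V)).Preconnected ↔
    ∀ u v, u ≠ w → v ≠ w → ReflTransGen (U E w) u v := by
  constructor
  · intro h u v hu hv
    have hr := h ⟨u, hu⟩ ⟨v, hv⟩
    rw [SimpleGraph.reachable_iff_reflTransGen] at hr
    have key : ∀ z : ({w}ᶜ : Set V), ReflTransGen ((und E).induce ({w}ᶜ : Set V)).Adj ⟨u, hu⟩ z →
        ReflTransGen (U E w) u z.1 := by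
      intro z hz
      induction hz with
      | refl => rfl
      | @tail a b _ hab ih =>
        have h' : (und E).Adj a.1 b.1 := hab
        exact ih.tail ⟨a.2, b.2, ((SimpleGraph.fromRel_adj _ _ _).1 h').2⟩
    exact key _ hr
  · rintro h ⟨u, hu⟩ ⟨v, hv⟩
    have hr := h u v hu hv
    induction hr with
    | refl => rfl
    | @tail b c _ hbc ih =>
      by_cases e : b = c
      · subst e; exact ih hv
      · have h' : (und E).Adj b c :=
          (SimpleGraph.fromRel_adj (fun a b => (a, b) ∈ E) b c).2 ⟨e, hbc.2.2⟩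
        exact (ih hbc.1).trans (SimpleGraph.Adj.reachable h')

structure Good (E : Finset (V × V)) (S : Finset V) (F : Finset (V × V)) : Prop where
  sub : F ⊆ E
  card : F.card + 2 ≤ 2 * S.card
  str : ∀ u ∈ S, ∀ v ∈ S, ReflTransGen (R F) u v
  bic : ∀ w, ∀ u ∈ S, ∀ v ∈ S, u ≠ w → v ≠ w → ReflTransGen (U F w) u v

theorem seg (r : V → V → Prop) (p : ℕ → V) (i j : ℕ) (hij : i ≤ j)
    (h : ∀ t, i ≤ t → t < j → r (p t) (p (t + 1))) : ReflTransGen r (p i) (p j) := by
  induction j, hij using Nat.le_induction with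
  | base => rfl
  | succ j hj ih => exact (ih fun t h1 h2 => h t h1 (by omega)).tail (h j hj (by omega))

theorem toFun (r : V → V → Prop) {y z : V} (h : ReflTransGen r y z) :
    ∃ (k : ℕ) (p : ℕ → V), p 0 = y ∧ p k = z ∧ ∀ t < k, r (p t) (p (t + 1)) := by
  induction h with
  | refl => exact ⟨0, fun _ => y, rfl, rfl, fun t ht => by omega⟩
  | @tail b c _ hbc ih =>
    obtain ⟨k, p, h0, hk, hp⟩ := ih
    refine ⟨k + 1, fun t => if t ≤ k then p t else c, by simp [h0], by simp, fun t ht => ?_⟩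
    by_cases e : t = k
    · subst e; simpa [hk] using hbc
    · have h1 : t ≤ k := by omega
      have h2 : t + 1 ≤ k := by omega
      simpa [h1, h2] using hp t (by omega)

def Ear (E : Finset (V × V)) (S : Finset V) (a b : V) (k : ℕ) (p : ℕ → V) : Prop :=
  1 ≤ k ∧ p 0 = a ∧ p (k + 1) = b ∧ (∀ t ≤ k, (p t, p (t + 1)) ∈ E) ∧ ∀ t, 1 ≤ t → t ≤ k → p t ∉ S

theorem ear_inj (E : Finset (V × V)) (S : Finset V) (a b : V) (h : ∃ k p, Ear E S a b k p) :
    ∃ k p, Ear E S a b k p ∧ ∀ i j, 1 ≤ i → i < j → j ≤ k → p i ≠ p j := by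
  classical
  obtain ⟨p, hp⟩ := Nat.find_spec h
  refine ⟨_, p, hp, fun i j hi hij hj e => ?_⟩
  set k := Nat.find h with hk
  obtain ⟨h1, h0, hb, hE, hS⟩ := hp
  refine Nat.find_min h (m := k - (j - i)) (by omega)
    ⟨fun t => if t ≤ i then p t else p (t + (j - i)), by omega, by simp [h0], ?_, ?_, ?_⟩
  · have : ¬ k - (j - i) + 1 ≤ i := by omega
    simp only [this, if_false]
    rw [← hb]; congr 1; omega
  · intro t ht
    rcases lt_trichotomy t i with h' | h' | h'
    · simpa [h'.le, Nat.succ_le_of_lt h'] using hE t (by omega)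
    · subst h'
      have : t + 1 + (j - t) = j + 1 := by omega
      simpa [this, e] using hE j hj
    · have a1 : ¬ t ≤ i := by omega
      have a2 : ¬ t + 1 ≤ i := by omega
      have : t + 1 + (j - i) = t + (j - i) + 1 := by omega
      simpa [a1, a2, this] using hE (t + (j - i)) (by omega)
  · intro t h1 h2
    by_cases a1 : t ≤ i
    · simpa [a1] using hS t h1 (by omega)
    · simpa [a1] using hS (t + (j - i)) (by omega) (by omega)

theorem extend [DecidableEq V] {E : Finset (V × V)} {S : Finset V} {F : Finset (V × V)}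
    (hG : Good E S F) {a b : V} (ha : a ∈ S) (hb : b ∈ S) (hab : a ≠ b ∨ ∀ c ∈ S, c = a)
    (h : ∃ k p, Ear E S a b k p) : ∃ S' F', Good E S' F' ∧ S.card < S'.card := by
  obtain ⟨k, p, ⟨h1, h0, hk, hE, hS⟩, hi⟩ := ear_inj E S a b h
  have hinj : ∀ i j, 1 ≤ i → i ≤ k → 1 ≤ j → j ≤ k → p i = p j → i = j := by
    intro i j a1 a2 a3 a4 e
    rcases lt_trichotomy i j with h | h | h
    · exact absurd e (hi i j a1 h a4)
    · exact h
    · exact absurd e.symm (hi j i a3 h a2)
  set F' := F ∪ (Finset.range (k + 1)).image fun t => (p t, p (t + 1)) with hF'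
  have mF : ∀ t ≤ k, (p t, p (t + 1)) ∈ F' := fun t ht =>
    Finset.mem_union_right _ (Finset.mem_image.2 ⟨t, Finset.mem_range.2 (by omega), rfl⟩)
  have sF : F ⊆ F' := Finset.subset_union_left
  have hc : (S ∪ (Finset.Icc 1 k).image p).card = S.card + k := by
    rw [Finset.card_union_of_disjoint, Finset.card_image_of_injOn]
    · simp
    · intro i hi j hj e
      simp only [Finset.coe_Icc, Set.mem_Icc] at hi hj
      exact hinj i j hi.1 hi.2 hj.1 hj.2 e
    · rw [Finset.disjoint_right]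
      intro x hx
      obtain ⟨t, ht, rfl⟩ := Finset.mem_image.1 hx
      exact hS t (Finset.mem_Icc.1 ht).1 (Finset.mem_Icc.1 ht).2
  have mS : ∀ x ∈ S ∪ (Finset.Icc 1 k).image p, x ∈ S ∨ ∃ t, 1 ≤ t ∧ t ≤ k ∧ p t = x := by
    intro x hx
    rcases Finset.mem_union.1 hx with hx | hx
    · exact Or.inl hx
    · obtain ⟨t, ht, rfl⟩ := Finset.mem_image.1 hx
      exact Or.inr ⟨t, (Finset.mem_Icc.1 ht).1, (Finset.mem_Icc.1 ht).2, rfl⟩
  refine ⟨S ∪ (Finset.Icc 1 k).image p, F', ⟨?_, ?_, ?_, ?_⟩, by omega⟩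
  · refine Finset.union_subset hG.sub fun e he => ?_
    obtain ⟨t, ht, rfl⟩ := Finset.mem_image.1 he
    exact hE t (by have := Finset.mem_range.1 ht; omega)
  · have b1 := Finset.card_union_le F ((Finset.range (k + 1)).image fun t => (p t, p (t + 1)))
    have b2 : ((Finset.range (k + 1)).image fun t => (p t, p (t + 1))).card ≤ k + 1 :=
      Finset.card_image_le.trans (by simp)
    have := hG.card
    rw [← hF'] at b1
    omega
  · have old : ∀ u ∈ S, ∀ v ∈ S, ReflTransGen (R F') u v := fun u hu v hv =>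
      mn (hG.str u hu v hv) fun x y h => sF h
    intro u hu v hv
    have t1 : ReflTransGen (R F') u b := by
      rcases mS u hu with hu | ⟨t, c1, c2, rfl⟩
      · exact old u hu b hb
      · rw [← hk]; exact seg _ p t (k + 1) (by omega) fun s _ hs => mF s (by omega)
    have t2 : ReflTransGen (R F') a v := by
      rcases mS v hv with hv | ⟨t, c1, c2, rfl⟩
      · exact old a ha v hv
      · rw [← h0]; exact seg _ p 0 t (by omega) fun s _ hs => mF s (by omega)
    exact t1.trans ((old b hb a ha).trans t2)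
  · intro w
    have old : ∀ u ∈ S, ∀ v ∈ S, u ≠ w → v ≠ w → ReflTransGen (U F' w) u v := fun u hu v hv c1 c2 =>
      mn (hG.bic w u hu v hv c1 c2) fun x y h => ⟨h.1, h.2.1, h.2.2.imp (fun h => sF h) fun h => sF h⟩
    have sg : ∀ i j, i ≤ j → j ≤ k + 1 → (∀ t, i ≤ t → t ≤ j → p t ≠ w) →
        ReflTransGen (U F' w) (p i) (p j) := fun i j hij hj hw =>
      seg _ p i j hij fun t c1 c2 => ⟨hw t c1 c2.le, hw _ (by omega) (by omega), Or.inl (mF t (by omega))⟩
    by_cases hw : ∀ c ∈ S, c = w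
    · have hwS : w ∈ S := hw a ha ▸ ha
      have base : ∀ x ∈ S ∪ (Finset.Icc 1 k).image p, x ≠ w → ReflTransGen (U F' w) (p 1) x := by
        intro x hx hxw
        rcases mS x hx with hx | ⟨t, c1, c2, rfl⟩
        · exact absurd (hw x hx) hxw
        · exact sg 1 t c1 (by omega) fun s d1 d2 e => hS s d1 (by omega) (e ▸ hwS)
      exact fun u hu v hv c1 c2 => (U_symm _ _ (base u hu c1)).trans (base v hv c2)
    · have base : ∀ x ∈ S ∪ (Finset.Icc 1 k).image p, x ≠ w →
          ∃ s ∈ S, s ≠ w ∧ ReflTransGen (U F' w) s x := by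
        intro x hx hxw
        rcases mS x hx with hx | ⟨t, c1, c2, rfl⟩
        · exact ⟨x, hx, hxw, ReflTransGen.refl⟩
        · by_cases hl : ∀ s, s ≤ t → p s ≠ w
          · exact ⟨a, ha, h0 ▸ hl 0 (by omega), h0 ▸ sg 0 t (by omega) (by omega) fun s _ d => hl s d⟩
          · push Not at hl
            obtain ⟨s, hs, e⟩ := hl
            have hr : ∀ s', t ≤ s' → s' ≤ k + 1 → p s' ≠ w := by
              intro s' d1 d2 e'
              by_cases s0 : s = 0
              · have aw : a = w := by rw [← h0, ← s0, e]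
                by_cases sk : s' = k + 1
                · have bw : b = w := by rw [← hk, ← sk, e']
                  rcases hab with h | h
                  · exact h (aw.trans bw.symm)
                  · exact hw fun c hc => (h c hc).trans aw
                · exact hS s' (by omega) (by omega) (by rw [e', ← aw]; exact ha)
              · by_cases sk : s' = k + 1
                · exact hS s (by omega) (by omega) (by rw [e, ← e', sk, hk]; exact hb)
                · have := hinj s s' (by omega) (by omega) (by omega) (by omega) (e.trans e'.symm)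
                  exact hxw (by rw [← e]; congr 1; omega)
            exact ⟨b, hb, hk ▸ hr (k + 1) (by omega) le_rfl,
              hk ▸ U_symm _ _ (sg t (k + 1) (by omega) le_rfl hr)⟩
      intro u hu v hv c1 c2
      obtain ⟨s, hs, d1, d2⟩ := base u hu c1
      obtain ⟨s', hs', d1', d2'⟩ := base v hv c2
      exact (U_symm _ _ d2).trans ((old s hs s' hs' d1 d1').trans d2')

theorem grow [DecidableEq V] {E : Finset (V × V)} (hE : SB E) {S : Finset V} {F : Finset (V × V)}
    (hG : Good E S F) (x0 : V) (hx0 : x0 ∉ S) : ∃ S' F', Good E S' F' ∧ S.card < S'.card := by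
  obtain ⟨r, hr⟩ : S.Nonempty := Finset.card_pos.1 (by have := hG.card; omega)
  let O : V → V → Prop := fun x y => x ∉ S ∧ y ∉ S ∧ (x, y) ∈ E
  let In : V → V → Prop := fun x a => a ∈ S ∧ ∃ y, y ∉ S ∧ (a, y) ∈ E ∧ ReflTransGen O y x
  let Out : V → V → Prop := fun x b => b ∈ S ∧ ∃ z, z ∉ S ∧ ReflTransGen O x z ∧ (z, b) ∈ E
  have hIn : ∀ x, x ∉ S → ∃ a, In x a := by
    intro x hx
    have h := hE.1 r x
    induction h with
    | refl => exact absurd hr hx
    | @tail b c _ hbc ih =>
      by_cases hb : b ∈ S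
      · exact ⟨b, hb, c, hx, hbc, ReflTransGen.refl⟩
      · obtain ⟨a, ha, y, h1, h2, h3⟩ := ih hb
        exact ⟨a, ha, y, h1, h2, h3.tail ⟨hb, hx, hbc⟩⟩
  have hOut : ∀ x, x ∉ S → ∃ b, Out x b := by
    intro x hx
    have h := hE.1 x r
    induction h using ReflTransGen.head_induction_on with
    | refl => exact absurd hr hx
    | @head b c hbc _ ih =>
      by_cases hc : c ∈ S
      · exact ⟨c, hc, b, hx, ReflTransGen.refl, hbc⟩
      · obtain ⟨a, ha, y, h1, h2, h3⟩ := ih hc
        exact ⟨a, ha, y, h1, h2.head ⟨hx, hc, hbc⟩, h3⟩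
  by_cases hex : ∃ x a b, In x a ∧ Out x b ∧ (a ≠ b ∨ ∀ c ∈ S, c = a)
  · obtain ⟨x, a, b, ⟨ha, y, hy, hay, hyx⟩, ⟨hb, z, hz, hxz, hzb⟩, hab⟩ := hex
    obtain ⟨k, p, h0, hk, hp⟩ := toFun O (hyx.trans hxz)
    refine extend hG ha hb hab ⟨k + 1, fun t => if t = 0 then a else if t ≤ k + 1 then p (t - 1) else b,
      by omega, by simp, by simp, fun t ht => ?_, fun t h1 h2 => ?_⟩
    · by_cases t0 : t = 0
      · subst t0; simpa [h0] using hay
      · by_cases tk : t = k + 1
        · subst tk; simpa [hk] using hzb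
        · have := (hp (t - 1) (by omega)).2.2
          have e : t - 1 + 1 = t := by omega
          have e2 : t ≤ k := by omega
          simpa [t0, ht, e, e2] using this
    · have t0 : t ≠ 0 := by omega
      simp only [t0, h2, if_true, if_false]
      by_cases tk : t - 1 = k
      · rw [tk, hk]; exact hz
      · exact (hp (t - 1) (by omega)).1
  · exfalso
    push Not at hex
    obtain ⟨a, ha⟩ := hIn x0 hx0
    obtain ⟨b, hb⟩ := hOut x0 hx0
    obtain ⟨rfl, c, hc, hca⟩ := hex x0 a b ha hb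
    have hw := (pre_iff E a).1 (hE.2 a) x0 c (fun e => hx0 (e ▸ ha.1)) hca
    have key : ∀ z, ReflTransGen (U E a) x0 z → z ∉ S ∧ In z a ∧ Out z a := by
      intro z hz
      induction hz with
      | refl => exact ⟨hx0, ha, hb⟩
      | @tail u v _ huv ih =>
        obtain ⟨i1, i2, i3⟩ := ih
        rcases huv.2.2 with h | h
        · have hv : v ∉ S := fun hv =>
            huv.2.1 (hex u a v i2 ⟨hv, u, i1, ReflTransGen.refl, h⟩).1.symm
          obtain ⟨a1, y, y1, y2, y3⟩ := i2
          have j : In v a := ⟨a1, y, y1, y2, y3.tail ⟨i1, hv, h⟩⟩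
          obtain ⟨b', hb'⟩ := hOut v hv
          exact ⟨hv, j, (hex v a b' j hb').1 ▸ hb'⟩
        · have hv : v ∉ S := fun hv =>
            huv.2.1 (hex u v a ⟨hv, u, i1, h, ReflTransGen.refl⟩ i3).1
          obtain ⟨a1, y, y1, y2, y3⟩ := i3
          have j : Out v a := ⟨a1, y, y1, y2.head ⟨hv, i1, h⟩, y3⟩
          obtain ⟨a', ha'⟩ := hIn v hv
          exact ⟨hv, (hex v a' a ha' j).1 ▸ ha', j⟩
    exact (key c hw).1 hc

theorem mn2 {r s : V → V → Prop} {a b : V} (h : ReflTransGen r a b)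
    (hrs : ∀ x y, r x y → ReflTransGen s x y) : ReflTransGen s a b := by
  induction h with
  | refl => rfl
  | tail _ h ih => exact ih.trans (hrs _ _ h)

theorem SB.mono {E F : Finset (V × V)} (h : SB F) (s : F ⊆ E) : SB E := by
  refine ⟨fun u v => mn (h.1 u v) fun x y h => s h, fun w => ?_⟩
  rw [pre_iff]
  exact fun u v hu hv => mn ((pre_iff F w).1 (h.2 w) u v hu hv)
    fun x y h => ⟨h.1, h.2.1, h.2.2.imp (fun h => s h) fun h => s h⟩

theorem exF (n : ℕ) (hn : 0 < n) (E : Finset (Fin n × Fin n)) (hE : SB E) :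
    ∃ F ⊆ E, SB F ∧ F.card + 2 ≤ 2 * n := by
  have ex : ∀ m, ∀ S F, Good E S F → n - S.card ≤ m → ∃ F, Good E Finset.univ F := by
    intro m
    induction m with
    | zero =>
      intro S F hG h
      have : S = Finset.univ := Finset.eq_univ_of_card S (by
        have := Finset.card_le_univ S
        simp only [Fintype.card_fin] at this ⊢
        omega)
      exact ⟨F, this ▸ hG⟩
    | succ m ih =>
      intro S F hG h
      by_cases hS : ∀ x, x ∈ S
      · exact ⟨F, Finset.eq_univ_of_forall hS ▸ hG⟩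
      · push Not at hS
        obtain ⟨x, hx⟩ := hS
        obtain ⟨S', F', hG', hlt⟩ := grow hE hG x hx
        exact ih S' F' hG' (by omega)
  obtain ⟨F, hF⟩ := ex n {⟨0, hn⟩} ∅ ⟨by simp, by simp,
    fun u hu v hv => by rw [Finset.mem_singleton.1 hu, Finset.mem_singleton.1 hv],
    fun w u hu v hv _ _ => by rw [Finset.mem_singleton.1 hu, Finset.mem_singleton.1 hv]⟩ (by omega)
  refine ⟨F, hF.sub, ⟨fun u v => hF.str u (by simp) v (by simp), fun w => ?_⟩, by
    simpa using hF.card⟩
  rw [pre_iff]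
  exact fun u v hu hv => hF.bic w u (by simp) v (by simp) hu hv

def Cut {α : Type} (tl hd : α → V) (r : V) (E : Finset α) : Prop :=
  ∀ X : V → Prop, ¬ X r → ∀ x, X x → ∃ a ∈ E, ¬ X (tl a) ∧ X (hd a)

theorem cut_out {E : Finset (V × V)} (r : V) :
    Cut Prod.fst Prod.snd r E ↔ ∀ v, ReflTransGen (R E) r v := by
  constructor
  · intro h v
    by_contra hv
    obtain ⟨a, ha, h1, h2⟩ := h (fun x => ¬ ReflTransGen (R E) r x) (fun h => h .refl) v hv
    exact h2 ((not_not.1 h1).tail ha)
  · intro h X hr x hx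
    have := h x
    induction this with
    | refl => exact absurd hx hr
    | @tail b c _ hbc ih =>
      by_cases hb : X b
      · exact ih hb
      · exact ⟨(b, c), hbc, hb, hx⟩

theorem cut_in {E : Finset (V × V)} (r : V) :
    Cut Prod.snd Prod.fst r E ↔ ∀ v, ReflTransGen (R E) v r := by
  constructor
  · intro h v
    by_contra hv
    obtain ⟨a, ha, h1, h2⟩ := h (fun x => ¬ ReflTransGen (R E) x r) (fun h => h .refl) v hv
    exact h2 ((not_not.1 h1).head ha)
  · intro h X hr x hx
    have := h x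
    induction this using ReflTransGen.head_induction_on with
    | refl => exact absurd hx hr
    | @head b c hbc _ ih =>
      by_cases hc : X c
      · exact ih hc
      · exact ⟨(b, c), hbc, hc, hx⟩

theorem cut_inj {α : Type} [DecidableEq α] (tl hd : α → V) (r : V) {E F : Finset α} (s : F ⊆ E)
    (hE : ∀ g, Cut tl hd r (E.erase g)) (hF : Cut tl hd r F) {e1 e2 f1 f2 : α}
    (n1 : e1 ∉ F) (n2 : e2 ∉ F) (c1 : ¬ Cut tl hd r ((E.erase e1).erase f1))
    (c2 : ¬ Cut tl hd r ((E.erase e2).erase f2)) (h : hd e1 = hd e2) : e1 = e2 := by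
  by_contra hne
  unfold Cut at c1 c2
  push Not at c1 c2
  obtain ⟨X, hX, x, hx, h1⟩ := c1
  obtain ⟨Y, hY, y, hy, h2⟩ := c2
  simp only [Finset.mem_erase, and_imp] at h1 h2
  obtain ⟨a1, ha1, p1, q1⟩ := hE f1 X hX x hx
  obtain ⟨a2, ha2, p2, q2⟩ := hE f2 Y hY y hy
  rw [Finset.mem_erase] at ha1 ha2
  obtain rfl : a1 = e1 := by
    by_contra hh; exact h1 a1 ha1.1 hh ha1.2 p1 q1
  obtain rfl : a2 = e2 := by
    by_contra hh; exact h2 a2 ha2.1 hh ha2.2 p2 q2
  obtain ⟨g, hg, p3, q3⟩ := hF (fun z => X z ∧ Y z) (fun h => hX h.1) (hd a1) ⟨q1, h ▸ q2⟩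
  obtain ⟨k1, hk1, p4, q4⟩ := hE g (fun z => X z ∨ Y z) (fun h => h.elim hX hY) x (Or.inl hx)
  obtain ⟨k2, hk2, p5, q5⟩ := hE k1 (fun z => X z ∨ Y z) (fun h => h.elim hX hY) x (Or.inl hx)
  rw [Finset.mem_erase] at hk1 hk2
  have g1 : g ≠ a1 := fun e => n1 (e ▸ hg)
  have g2 : g ≠ a2 := fun e => n2 (e ▸ hg)
  have t1 := h1 g
  have t2 := h2 g
  have t3 := h1 k1
  have t4 := h2 k1
  have t5 := h1 k2
  have t6 := h2 k2
  have t7 := h1 a2
  have t8 := h2 a1
  have t9 := s hg
  have q1' : Y (hd a1) := h ▸ q2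
  have q2' : X (hd a2) := h ▸ q1
  clear h1 h2 hE hF s n1 n2 hg hX hY hx hy h
  by_cases b1 : k1 = a1 <;> by_cases b2 : k1 = a2 <;> by_cases b3 : k2 = a1 <;>
    by_cases b4 : k2 = a2 <;> grind

end Pool.Agent.KS6_54.SBD
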