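import Pool.Agent.KS6_54.SBD.Base

set_option autoImplicit false

/-!
# Arcs which are only needed for the biconnectivity form a forest
-/

namespace Pool.Agent.KS6_54.SBD

open Relation

variable {V : Type}

/-- the arc `a` has exactly one end in `Z` -/
def Cr (Z : V → Prop) (a : V × V) : Prop := (Z a.1 ∧ ¬ Z a.2) ∨ (¬ Z a.1 ∧ Z a.2)

/-- at least four arcs leave or enter a nonempty proper set of vertices if the digraph is strongly
connected after the deletion of any arc -/
theorem four [DecidableEq V] {E : Finset (V × V)} (h : ∀ g u v, ReflTransGen (R (E.erase g)) u v)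
    (Y : V → Prop) {y z : V} (hy : Y y) (hz : ¬ Y z) (p q r : V × V)
    (hp : ∀ a ∈ E, Cr Y a → a = p ∨ a = q ∨ a = r) : False := by
  have out : ∀ g, ∃ a ∈ E.erase g, Y a.1 ∧ ¬ Y a.2 := by
    intro g
    obtain ⟨a, ha, h1, h2⟩ := (cut_out (E := E.erase g) y).2 (h g y) (fun x => ¬ Y x)
      (not_not.2 hy) z hz
    exact ⟨a, ha, not_not.1 h1, h2⟩
  have inn : ∀ g, ∃ a ∈ E.erase g, ¬ Y a.1 ∧ Y a.2 := by
    intro g
    obtain ⟨a, ha, h1, h2⟩ := (cut_out (E := E.erase g) z).2 (h g z) Y hz y hy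
    exact ⟨a, ha, h1, h2⟩
  obtain ⟨a1, m1, l1, r1⟩ := out p
  obtain ⟨a2, m2, l2, r2⟩ := out a1
  obtain ⟨b1, m3, l3, r3⟩ := inn p
  obtain ⟨b2, m4, l4, r4⟩ := inn b1
  rw [Finset.mem_erase] at m1 m2 m3 m4
  have t1 := hp a1 m1.2 (Or.inl ⟨l1, r1⟩)
  have t2 := hp a2 m2.2 (Or.inl ⟨l2, r2⟩)
  have t3 := hp b1 m3.2 (Or.inr ⟨l3, r3⟩)
  have t4 := hp b2 m4.2 (Or.inr ⟨l4, r4⟩)
  clear hp out inn h
  grind

/-- after the deletion of the vertex `w` the only arcs between `X` and the rest are `e` and possibly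
`f` -/
def Sep (E : Finset (V × V)) (w : V) (X : V → Prop) (e f : V × V) : Prop :=
  ¬ X w ∧ e.1 ≠ w ∧ e.2 ≠ w ∧ Cr X e ∧
    ∀ a ∈ E, a.1 ≠ w → a.2 ≠ w → Cr X a → a = e ∨ a = f

theorem Sep.compl {E : Finset (V × V)} {w : V} {X : V → Prop} {e f : V × V}
    (h : Sep E w X e f) : Sep E w (fun a => a ≠ w ∧ ¬ X a) e f := by
  obtain ⟨h1, h2, h3, h4, h5⟩ := h
  refine ⟨fun h => h.1 rfl, h2, h3, ?_, fun a ha h6 h7 h8 => h5 a ha h6 h7 ?_⟩
  · unfold Cr at *
    tauto
  · unfold Cr at *
    tauto

open Classical in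
theorem desc [Fintype V] [DecidableEq V] {E F K : Finset (V × V)}
    (hE : ∀ g u v, ReflTransGen (R (E.erase g)) u v)
    (hK : ∀ e ∈ K, (∀ g u v, ReflTransGen (R ((E.erase e).erase g)) u v) ∧
       e ∉ F ∧ ∃ f ∈ F, ∃ w X, Sep E w X e f)
    (hKE : K ⊆ E)
    (hb : ∀ Z : V → Prop, ∀ e ∈ K, Cr Z e → ∃ g ∈ K, g ≠ e ∧ Cr Z g) :
    ∀ m : ℕ, ∀ X : V → Prop, (Finset.univ.filter X).card ≤ m → ∀ w, ∀ e ∈ K, ∀ f ∈ F,
      ¬ Sep E w X e f := by
  intro m
  induction m with
  | zero =>
    intro X hX w e he f hf hs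
    have h0 : Finset.univ.filter X = ∅ := Finset.card_eq_zero.1 (Nat.le_zero.1 hX)
    have h1 : ∀ a, ¬ X a := fun a ha => by
      have : a ∈ Finset.univ.filter X := by simp [ha]
      rw [h0] at this
      simp at this
    rcases hs.2.2.2.1 with h | h
    · exact h1 _ h.1
    · exact h1 _ h.2
  | succ m ih =>
    intro X hX w e he f hf hs
    obtain ⟨g, hg, hge, hgX⟩ := hb X e he hs.2.2.2.1
    obtain ⟨hg2, gF, f', hf', w', X0, hs0⟩ := hK g hg
    have gf : g ≠ f := fun h => gF (h ▸ hf)
    have hXw := hs.1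
    obtain ⟨u, hXu, huw, hgu⟩ : ∃ u, X u ∧ u ≠ w ∧ (g = (u, w) ∨ g = (w, u)) := by
      have h0 := hs.2.2.2.2 g (hKE hg)
      have h0' : ¬ (g.1 ≠ w ∧ g.2 ≠ w) := fun h => by
        rcases h0 h.1 h.2 hgX with h | h
        · exact hge h
        · exact gf h
      by_cases h1 : g.1 = w
      · have h2 : X g.2 := by
          rcases hgX with h | h
          · exact absurd (h1 ▸ h.1) hXw
          · exact h.2
        exact ⟨g.2, h2, fun h => hXw (h ▸ h2), Or.inr (Prod.ext h1 rfl)⟩
      · have h3 : g.2 = w := by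
          by_contra h3
          exact h0' ⟨h1, h3⟩
        have h2 : X g.1 := by
          rcases hgX with h | h
          · exact h.1
          · exact absurd (h3 ▸ h.2) hXw
        exact ⟨g.1, h2, fun h => hXw (h ▸ h2), Or.inl (Prod.ext rfl h3)⟩
    have huw' : u ≠ w' ∧ w ≠ w' := by
      have h1 := hs0.2.1
      have h2 := hs0.2.2.1
      rcases hgu with rfl | rfl
      · exact ⟨h1, h2⟩
      · exact ⟨h2, h1⟩
    obtain ⟨X', hu', hw', hs'⟩ : ∃ X' : V → Prop, X' u ∧ ¬ X' w ∧ Sep E w' X' g f' := by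
      have hc := hs0.2.2.2.1
      by_cases h : X0 u
      · refine ⟨X0, h, ?_, hs0⟩
        unfold Cr at hc
        rcases hgu with rfl | rfl <;> simp only at hc <;> tauto
      · refine ⟨fun a => a ≠ w' ∧ ¬ X0 a, ⟨huw'.1, h⟩, ?_, hs0.compl⟩
        unfold Cr at hc
        rcases hgu with rfl | rfl <;> simp only at hc <;> tauto
    have hS := hs.2.2.2.2
    have hS' := hs'.2.2.2.2
    by_cases hw : X w'
    · -- `w'` in `X`: then `X'` is a proper subset of `X`
      have hemp : ∀ y, y ≠ w → ¬ X y → ¬ X' y := by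
        intro y hy1 hy2 hy3
        refine four hE (fun a => a ≠ w ∧ ¬ X a ∧ X' a) (y := y) (z := w) ⟨hy1, hy2, hy3⟩
          (fun h => h.1 rfl) f' e f fun a ha hc => ?_
        have k1 := hS a ha
        have k2 := hS' a ha
        have key : ∀ p q : V, (a = (p, q) ∨ a = (q, p)) → p ≠ w → ¬ X p → X' p →
            ¬ (q ≠ w ∧ ¬ X q ∧ X' q) → a = f' ∨ a = e ∨ a = f := by
          intro p q hpq p1 p2 p3 q1
          have pw' : p ≠ w' := fun h => p2 (h ▸ hw)
          by_cases q2 : q = w
          · have : a = g ∨ a = f' := by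
              unfold Cr at k2
              rcases hpq with rfl | rfl
              · exact k2 pw' (q2 ▸ huw'.2) (Or.inl ⟨p3, q2 ▸ hw'⟩)
              · exact k2 (q2 ▸ huw'.2) pw' (Or.inr ⟨q2 ▸ hw', p3⟩)
            rcases this with h | h
            · exfalso
              rw [h] at hpq
              rcases hgu with h1 | h1 <;> rw [h1] at hpq <;> rcases hpq with h2 | h2 <;>
                simp only [Prod.mk.injEq] at h2 <;> grind
            · exact Or.inl h
          by_cases q3 : X q
          · have : a = e ∨ a = f := by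
              unfold Cr at k1
              rcases hpq with rfl | rfl
              · exact k1 p1 q2 (Or.inr ⟨p2, q3⟩)
              · exact k1 q2 p1 (Or.inl ⟨q3, p2⟩)
            exact Or.inr this
          have q4 : ¬ X' q := fun h => q1 ⟨q2, q3, h⟩
          have qw' : q ≠ w' := fun h => q3 (h ▸ hw)
          have : a = g ∨ a = f' := by
            unfold Cr at k2
            rcases hpq with rfl | rfl
            · exact k2 pw' qw' (Or.inl ⟨p3, q4⟩)
            · exact k2 qw' pw' (Or.inr ⟨q4, p3⟩)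
          rcases this with h | h
          · exfalso
            rw [h] at hpq
            rcases hgu with h1 | h1 <;> rw [h1] at hpq <;> rcases hpq with h2 | h2 <;>
              simp only [Prod.mk.injEq] at h2 <;> grind
          · exact Or.inl h
        rcases hc with ⟨⟨c1, c2, c3⟩, c4⟩ | ⟨c4, ⟨c1, c2, c3⟩⟩
        · exact key a.1 a.2 (Or.inl rfl) c1 c2 c3 c4
        · exact key a.2 a.1 (Or.inr rfl) c1 c2 c3 c4
      have hsub : ∀ a, X' a → X a := fun a ha => by
        by_contra h
        by_cases h2 : a = w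
        · exact hw' (h2 ▸ ha)
        · exact hemp a h2 h ha
      refine ih X' ?_ w' g hg f' hf' hs'
      have : Finset.univ.filter X' ⊂ Finset.univ.filter X := by
        refine (Finset.ssubset_iff_of_subset fun a ha => ?_).2 ⟨w', by simp [hw], ?_⟩
        · simp only [Finset.mem_filter, Finset.mem_univ, true_and] at ha ⊢
          exact hsub a ha
        · simp only [Finset.mem_filter, Finset.mem_univ, true_and]
          exact hs'.1
      have := Finset.card_lt_card this
      omega
    · -- `w'` not in `X`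
      refine four hg2 (fun a => X a ∧ X' a) (y := u) (z := w) ⟨hXu, hu'⟩
          (fun h => hXw h.1) f' e f fun a ha hc => ?_
      rw [Finset.mem_erase] at ha
      have k1 := hS a ha.2
      have k2 := hS' a ha.2
      have key : ∀ p q : V, (a = (p, q) ∨ a = (q, p)) → X p → X' p →
            ¬ (X q ∧ X' q) → a = f' ∨ a = e ∨ a = f := by
        intro p q hpq p1 p2 q1
        have pw' : p ≠ w' := fun h => hw (h ▸ p1)
        have pw : p ≠ w := fun h => hXw (h ▸ p1)
        have fin : a = g ∨ a = f' → a = f' ∨ a = e ∨ a = f := fun h => by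
          rcases h with h | h
          · exact absurd h ha.1
          · exact Or.inl h
        by_cases q2 : X q
        · have q3 : ¬ X' q := fun h => q1 ⟨q2, h⟩
          have qw' : q ≠ w' := fun h => hw (h ▸ q2)
          apply fin
          rcases hpq with rfl | rfl
          · exact k2 pw' qw' (Or.inl ⟨p2, q3⟩)
          · exact k2 qw' pw' (Or.inr ⟨q3, p2⟩)
        by_cases q4 : q = w
        · apply fin
          rcases hpq with rfl | rfl
          · exact k2 pw' (q4 ▸ huw'.2) (Or.inl ⟨p2, q4 ▸ hw'⟩)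
          · exact k2 (q4 ▸ huw'.2) pw' (Or.inr ⟨q4 ▸ hw', p2⟩)
        · refine Or.inr ?_
          rcases hpq with rfl | rfl
          · exact k1 pw q4 (Or.inl ⟨p1, q2⟩)
          · exact k1 q4 pw (Or.inr ⟨q2, p1⟩)
      rcases hc with ⟨⟨c1, c2⟩, c4⟩ | ⟨c4, ⟨c1, c2⟩⟩
      · exact key a.1 a.2 (Or.inl rfl) c1 c2 c4
      · exact key a.2 a.1 (Or.inr rfl) c1 c2 c4

open Classical in
/-- a set of at least `n` arcs on `n` vertices contains a nonempty set of arcs without bridges -/
theorem bridgeless [Fintype V] (r : V) (D : Finset (V × V)) (hD : Fintype.card V ≤ D.card) :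
    ∃ K ⊆ D, K.Nonempty ∧
      ∀ Z : V → Prop, ∀ e ∈ K, Cr Z e → ∃ g ∈ K, g ≠ e ∧ Cr Z g := by
  let v : Option D → (V → ℚ) := fun o => match o with
    | none => Pi.single r 1
    | some e => Pi.single e.1.1 1 - Pi.single e.1.2 1
  have hnl : ¬ LinearIndependent ℚ v := fun h => by
    have := h.fintype_card_le_finrank
    simp only [Fintype.card_option, Fintype.card_coe, Module.finrank_fintype_fun_eq_card] at this
    omega
  obtain ⟨c, hc, i, hi⟩ := Fintype.not_linearIndependent_iff.1 hnl
  rw [Fintype.sum_option] at hc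
  have key : ∀ Z : V → Prop, c none * (if Z r then 1 else 0) +
      ∑ e : D, c (some e) * ((if Z e.1.1 then 1 else 0) - (if Z e.1.2 then 1 else 0)) = 0 := by
    intro Z
    let L : (V → ℚ) →ₗ[ℚ] ℚ := ∑ a, (if Z a then (1 : ℚ) else 0) • LinearMap.proj a
    have hL : ∀ a, L (Pi.single a 1) = if Z a then 1 else 0 := by
      intro a
      simp only [L, LinearMap.sum_apply, LinearMap.smul_apply, LinearMap.proj_apply, smul_eq_mul]
      rw [Finset.sum_eq_single a]
      · simp
      · intro b _ hb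
        simp [hb]
      · simp
    have := congrArg L hc
    rw [map_add, map_zero, map_smul, map_sum] at this
    simp only [map_smul, v, map_sub, hL, smul_eq_mul] at this
    exact this
  have h0 : c none = 0 := by
    have := key (fun _ => True)
    simpa using this
  refine ⟨D.filter fun e => ∃ h : e ∈ D, c (some ⟨e, h⟩) ≠ 0, Finset.filter_subset _ _, ?_, ?_⟩
  · rcases i with _ | i
    · exact absurd h0 hi
    · exact ⟨i.1, Finset.mem_filter.2 ⟨i.2, i.2, hi⟩⟩
  · intro Z e he hZ
    obtain ⟨he1, he2, he3⟩ := Finset.mem_filter.1 he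
    by_contra hcon
    push Not at hcon
    have := key Z
    rw [h0, zero_mul, zero_add, Finset.sum_eq_single ⟨e, he1⟩] at this
    · rcases mul_eq_zero.1 this with h | h
      · exact he3 h
      · rcases hZ with ⟨z1, z2⟩ | ⟨z1, z2⟩ <;> simp [z1, z2] at h
    · intro b _ hb
      by_cases hb2 : c (some b) = 0
      · rw [hb2, zero_mul]
      · have h1 := hcon b.1 (Finset.mem_filter.2 ⟨b.2, b.2, hb2⟩) (fun h => hb (Subtype.ext h))
        have h2 : (Z b.1.1 ↔ Z b.1.2) := by
          unfold Cr at h1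
          tauto
        by_cases h3 : Z b.1.1
        · simp [h3, h2.1 h3]
        · have h4 : ¬ Z b.1.2 := fun h => h3 (h2.2 h)
          simp [h3, h4]
    · simp

end Pool.Agent.KS6_54.SBD
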